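import Mathlib
import Pool.Agent.X205.AW.Main

/-!
Problem MP_3fc7b1_an, Q1 (positive answer).

Every infinite `AW*`-factor is clean; no countable decomposability is assumed.

Main steps: comparison theory in `AW*`-factors (existence of range projections, comparability,
halving of infinite projections); every element which is close to an idempotent modulo a finite
projection is clean; for the remaining elements a 2-block or 3-block idempotent is written down
explicitly after compressing to scalars by isometries; the general element is made block
triangular with respect to a projection which is equivalent to a subprojection of an infinite
spectral projection and invariant.
-/

set_option autoImplicit false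

namespace Pool.Agent.Results.MP_3fc7b1_an.InfiniteFactorsClean

open Pool.Agent.X205.AW

theorem result (A : Type*) [CStarAlgebra A] (hA : IsAWStar A) (hF : IsFactor A)
    (hI : ¬ IsFiniteProj (1 : A)) : IsCleanRing A :=
  main hA hF hI

end Pool.Agent.Results.MP_3fc7b1_an.InfiniteFactorsClean
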